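import Mathlib
import Pool.Agent.W89.PW.Defs
import Pool.Agent.H245R3.PS_SA

/-!
# Tasks PW-2a, PW-2b (large sieve and square moduli for the fourth power of a block)
(port of `Pool.Agent.H944R3.PB_T1` and `Pool.Agent.H245R3.PS_SA`)
-/

set_option autoImplicit false

namespace Pool.Agent.W342.PW2

open Finset Pool.Agent.Helper112
open Pool.Agent.W89.PW
open Pool.Agent.H39R3.PB (ph pts ph_nonneg ph_add_int dilate coprime_b)
open Pool.Agent.H39R3.PS (EM)
open Pool.Agent.H944R3.PB (DD ph_eq digits_zero sum_fr_int)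
open Pool.Agent.H245R3.PSSA (pars dilate_all)

lemma ps_add_int (s t : ℕ) (x : ℝ) (k : ℤ) : ps s t (x + k) = ps s t x := by
  unfold ps
  rw [ph_add_int, ph_add_int]

lemma ps_nonneg (s t : ℕ) (x : ℝ) : 0 ≤ ps s t x := mul_nonneg (ph_nonneg _ _) (ph_nonneg _ _)

lemma Fw_nonneg (b s t L J : ℕ) (x : ℝ) : 0 ≤ Fw b s t L J x :=
  prod_nonneg fun _ _ => ps_nonneg _ _ _

lemma Fw_add_int (b s t L J : ℕ) (x : ℝ) (k : ℤ) : Fw b s t L J (x + k) = Fw b s t L J x := by
  unfold Fw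
  apply prod_congr rfl
  intro j _
  have : (fr b L j : ℝ) * (x + k) = fr b L j * x + ((fr b L j * k : ℤ) : ℝ) := by
    push_cast; ring
  rw [this, ps_add_int]

lemma fr_scale' {b L M c : ℕ} (hM : M ≤ L) (hc : c ≤ M) : fr b L c = b ^ (L - M) * fr b M c := by
  unfold fr
  rw [mul_add, ← pow_add, ← pow_add]
  congr 2 <;> omega

lemma Fw_scale {b s t L M J : ℕ} (hM : M ≤ L) (hJ : J ≤ M + 1) (x : ℝ) :
    Fw b s t L J x = Fw b s t M J ((b : ℝ) ^ (L - M) * x) := by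
  unfold Fw
  apply prod_congr rfl
  intro j hj
  rw [mem_range] at hj
  rw [fr_scale' hM (show j ≤ M by omega)]
  congr 1
  push_cast
  ring

/-- expansion of the square of the product of the two digit sums -/
lemma D4_expand (b s t : ℕ) (hs : 1 ≤ s) (ht : 1 ≤ t) (hst : s + t = b + 1) (x : ℝ) :
    (DD s x * DD t x) ^ 2 = ∑ z ∈ range (2 * b - 1), (w2 s t z : ℂ) * ee (z * x) := by
  have h0 : ∀ r : ℕ, DD r x ^ 2 = ∑ p ∈ (range r) ×ˢ (range r), ee ((p.1 + p.2 : ℕ) * x) := by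
    intro r
    unfold DD
    rw [sq, sum_mul_sum, ← sum_product']
    refine sum_congr rfl fun p _ => ?_
    rw [← ls_ee_add]
    congr 1
    push_cast
    ring
  rw [mul_pow, h0, h0, sum_mul_sum, ← sum_product']
  have h1 : ∀ p ∈ ((range s ×ˢ range s) ×ˢ (range t ×ˢ range t)),
      p.1.1 + p.1.2 + (p.2.1 + p.2.2) ∈ range (2 * b - 1) := by
    intro p hp
    simp only [mem_product, mem_range] at hp
    rw [mem_range]; omega
  rw [← sum_fiberwise_of_maps_to h1]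
  apply sum_congr rfl
  intro z _
  rw [w2, card_eq_sum_ones, Nat.cast_sum, sum_mul]
  apply sum_congr rfl
  intro p hp
  rw [mem_filter] at hp
  rw [← ls_ee_add, ← hp.2]
  push_cast
  rw [one_mul]
  congr 1
  ring

/-- the energy -/
noncomputable def E4 (b s t : ℕ) : ℝ := ∑ z ∈ range (2 * b - 1), ((w2 s t z : ℕ) : ℝ) ^ 2

lemma E4_nonneg (b s t : ℕ) : 0 ≤ E4 b s t := sum_nonneg fun _ _ => sq_nonneg _

lemma m4_eq (b s t : ℕ) (hs : 1 ≤ s) (ht : 1 ≤ t) (hst : s + t = b + 1) :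
    m4 s t = E4 b s t / ((s : ℝ) * t) ^ 4 := by
  unfold m4 E4
  congr 1
  symm
  apply sum_subset
  · intro z hz
    rw [mem_range] at hz ⊢
    omega
  · intro z hz hz2
    rw [mem_range] at hz hz2
    have : w2 s t z = 0 := by
      unfold w2
      rw [card_eq_zero, filter_eq_empty_iff]
      intro p hp
      simp only [mem_product, mem_range] at hp
      omega
    rw [this]
    simp

/-- the frequency attached to a digit vector -/
def nn (b M : ℕ) (z : Fin (M + 1) → ℕ) : ℕ := ∑ c : Fin (M + 1), z c * fr b M c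

lemma fr_PB (b M c : ℕ) : fr b M c = Pool.Agent.H39R3.PB.fr b (M + 1) (c + 1) := fr_eq b M c

lemma nn_inj (b : ℕ) (hb : 2 ≤ b) (M : ℕ) (s t : Fin (M + 1) → ℕ) (hs : ∀ c, s c ≤ 2 * (b - 1))
    (ht : ∀ c, t c ≤ 2 * (b - 1)) (h : nn b M s = nn b M t) : s = t := by
  set Z : ℕ → ℤ := fun c => if hc : c < M + 1 then (s ⟨c, hc⟩ : ℤ) - t ⟨c, hc⟩ else 0 with hZ
  have h1 := digits_zero b hb (M + 1) (fun c => if c = 0 then 0 else Z (c - 1)) ?_ ?_
  · funext c
    have := h1 (c + 1) (by omega)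
    simp only [Nat.add_eq_zero_iff, one_ne_zero, and_false, if_false, Nat.add_sub_cancel, hZ,
      c.2, dif_pos] at this
    have h3 : ((s c : ℤ)) = t c := by linarith
    exact_mod_cast h3
  · intro c hc
    by_cases h0 : c = 0
    · simp only [h0, if_true, abs_zero]
      have : (1 : ℤ) ≤ b := by exact_mod_cast (by omega : 1 ≤ b)
      linarith
    · have hc' : c - 1 < M + 1 := by omega
      simp only [h0, if_false, hZ, hc', dif_pos]
      have h2 := hs ⟨c - 1, hc'⟩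
      have h3 := ht ⟨c - 1, hc'⟩
      rw [abs_le]
      omega
  · rw [sum_range_succ']
    simp only [Nat.add_eq_zero_iff, one_ne_zero, and_false, if_false, Nat.add_sub_cancel, if_true,
      zero_mul, add_zero]
    have h4 : (nn b M s : ℤ) - nn b M t = 0 := by rw [h]; ring
    rw [← h4]
    unfold nn
    push_cast
    rw [← sum_sub_distrib, ← Fin.sum_univ_eq_sum_range
      (fun c => Z c * (Pool.Agent.H39R3.PB.fr b (M + 1) (c + 1) : ℤ)) (M + 1)]
    apply sum_congr rfl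
    intro c _
    simp only [hZ, c.2, dif_pos, ← fr_PB]
    ring

lemma nn_le (b : ℕ) (hb : 2 ≤ b) (M : ℕ) (s : Fin (M + 1) → ℕ) (hs : ∀ c, s c ≤ 2 * (b - 1)) :
    nn b M s + 1 ≤ 2 * b ^ (2 * M + 3) := by
  have h1 : nn b M s ≤ 2 * (b - 1) *
      ∑ c ∈ range (M + 1 + 1), Pool.Agent.H39R3.PB.fr b (M + 1) c := by
    unfold nn
    rw [sum_range_succ', mul_add, mul_sum, ← Fin.sum_univ_eq_sum_range
      (fun c => 2 * (b - 1) * Pool.Agent.H39R3.PB.fr b (M + 1) (c + 1)) (M + 1)]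
    refine le_trans (sum_le_sum fun c _ => ?_) (Nat.le_add_right _ _)
    rw [fr_PB]
    exact Nat.mul_le_mul_right _ (hs c)
  have h2 := sum_fr_int b (M + 1)
  have h3 : ((b - 1 : ℕ) : ℤ) = (b : ℤ) - 1 := by
    rw [Nat.cast_sub (by omega)]; simp
  have h4 : ((nn b M s : ℕ) : ℤ) ≤ 2 * ((b : ℤ) - 1) *
      ∑ c ∈ range (M + 1 + 1), (Pool.Agent.H39R3.PB.fr b (M + 1) c : ℤ) := by
    rw [← h3]
    exact_mod_cast h1
  have h5 : ((nn b M s + 1 : ℕ) : ℤ) ≤ ((2 * b ^ (2 * M + 3) : ℕ) : ℤ) := by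
    push_cast
    have e : 2 * (M + 1) + 1 = 2 * M + 3 := by ring
    rw [e] at h2
    rw [← h2]
    linarith
  exact_mod_cast h5

/-- the exponential sum -/
lemma SS_expand (b s t : ℕ) (hs : 1 ≤ s) (ht : 1 ≤ t) (hst : s + t = b + 1) (M : ℕ) (x : ℝ) :
    ∏ c : Fin (M + 1), (DD s (fr b M c * x) * DD t (fr b M c * x)) ^ 2 =
      ∑ z ∈ Fintype.piFinset (fun _ : Fin (M + 1) => range (2 * b - 1)),
        ((∏ c : Fin (M + 1), w2 s t (z c) : ℕ) : ℂ) * ee (nn b M z * x) := by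
  simp_rw [D4_expand b s t hs ht hst]
  rw [prod_univ_sum]
  apply sum_congr rfl
  intro z _
  rw [prod_mul_distrib]
  push_cast
  congr 1
  unfold nn
  push_cast
  rw [sum_mul]
  induction (univ : Finset (Fin (M + 1))) using Finset.induction_on with
  | empty => simp [ee]
  | insert a t ha ih =>
    rw [prod_insert ha, sum_insert ha, ls_ee_add, ih]
    congr 2
    ring

lemma range_le (b z : ℕ) (h : z ∈ range (2 * b - 1)) : z ≤ 2 * (b - 1) := by
  rw [mem_range] at h; omega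

/-- large sieve for the block, after rescaling -/
lemma block_ls (b s t : ℕ) (hb : 2 ≤ b) (hs : 1 ≤ s) (ht : 1 ≤ t) (hst : s + t = b + 1)
    (M F : ℕ) :
    ∑ f ∈ Icc 1 F, ∑ a ∈ (range f).filter (fun a => a.Coprime f),
      ‖∏ c : Fin (M + 1), (DD s (fr b M c * ((a : ℝ) / f)) *
        DD t (fr b M c * ((a : ℝ) / f))) ^ 2‖ ^ 2 ≤
      6 * ((2 * b ^ (2 * M + 3) : ℕ) + (F : ℝ) ^ 2) * E4 b s t ^ (M + 1) := by
  classical
  set P := Fintype.piFinset (fun _ : Fin (M + 1) => range (2 * b - 1)) with hP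
  set W : (Fin (M + 1) → ℕ) → ℝ := fun z => ((∏ c : Fin (M + 1), w2 s t (z c) : ℕ) : ℝ) with hW
  set α : ℕ → ℂ := fun n => ∑ z ∈ P.filter (fun z => nn b M z + 1 = n), (W z : ℂ) with hα
  set N := 2 * b ^ (2 * M + 3) with hN
  have hs18 : ∀ z ∈ P, ∀ c, z c ≤ 2 * (b - 1) := by
    intro z hz c
    rw [hP, Fintype.mem_piFinset] at hz
    exact range_le b _ (hz c)
  have hmaps : ∀ z ∈ P, nn b M z + 1 ∈ Icc 1 N := by
    intro z hz
    rw [mem_Icc]
    exact ⟨by omega, nn_le b hb M z (hs18 z hz)⟩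
  have key := additive_large_sieve N F α
  have h1 : ∑ n ∈ Icc 1 N, ‖α n‖ ^ 2 = E4 b s t ^ (M + 1) := by
    have h2 : ∀ n, ‖α n‖ ^ 2 = ∑ z ∈ P.filter (fun z => nn b M z + 1 = n), W z ^ 2 := by
      intro n
      rw [hα]
      simp only
      rcases (P.filter (fun z => nn b M z + 1 = n)).eq_empty_or_nonempty with h | ⟨z, hz⟩
      · rw [h]; simp
      · have : P.filter (fun z => nn b M z + 1 = n) = {z} := by
          apply eq_singleton_iff_unique_mem.2 ⟨hz, ?_⟩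
          intro z' hz'
          rw [mem_filter] at hz hz'
          exact nn_inj b hb M z' z (hs18 z' hz'.1) (hs18 z hz.1) (by omega)
        rw [this]
        simp
    simp_rw [h2]
    rw [sum_fiberwise_of_maps_to hmaps (fun z => W z ^ 2)]
    have h3 : ∀ z, W z ^ 2 = ∏ c : Fin (M + 1), ((w2 s t (z c) : ℝ)) ^ 2 := by
      intro z
      rw [hW]
      simp only
      push_cast
      rw [← prod_pow]
    simp_rw [h3]
    rw [hP, ← prod_univ_sum (fun _ : Fin (M + 1) => range (2 * b - 1))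
      (fun _ j => ((w2 s t j : ℝ)) ^ 2)]
    rw [prod_const, card_univ, Fintype.card_fin]
    rfl
  rw [h1] at key
  refine le_trans (le_of_eq ?_) key
  apply sum_congr rfl
  intro f _
  apply sum_congr rfl
  intro a _
  congr 1
  rw [SS_expand b s t hs ht hst]
  have h4 : ∑ n ∈ Icc 1 N, α n * ee (n * a / f) =
      ee ((a : ℝ) / f) * ∑ z ∈ P, ((∏ c : Fin (M + 1), w2 s t (z c) : ℕ) : ℂ) *
        ee (nn b M z * ((a : ℝ) / f)) := by
    rw [hα]
    simp only
    simp_rw [sum_mul]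
    rw [← sum_fiberwise_of_maps_to hmaps, mul_sum]
    apply sum_congr rfl
    intro n _
    rw [mul_sum]
    apply sum_congr rfl
    intro z hz
    rw [mem_filter] at hz
    rw [← hz.2, hW]
    have : ee (((nn b M z + 1 : ℕ) : ℝ) * a / f) =
        ee ((a : ℝ) / f) * ee (nn b M z * ((a : ℝ) / f)) := by
      rw [← ls_ee_add]
      congr 1
      push_cast
      ring
    rw [this]
    push_cast
    ring
  rw [h4, norm_mul, ls_norm_ee, one_mul]

/-- the function of the block as a norm square -/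
lemma block_eq (b s t : ℕ) (hs : 1 ≤ s) (ht : 1 ≤ t) (M : ℕ) (x : ℝ) :
    Fw b s t M (M + 1) x ^ 4 =
      ‖∏ c : Fin (M + 1), (DD s (fr b M c * x) * DD t (fr b M c * x)) ^ 2‖ ^ 2 /
        (((s : ℝ) * t) ^ 4) ^ (M + 1) := by
  have hs0 : (s : ℝ) ≠ 0 := by
    have : s ≠ 0 := by omega
    exact_mod_cast this
  have ht0 : (t : ℝ) ≠ 0 := by
    have : t ≠ 0 := by omega
    exact_mod_cast this
  have h1 : ‖∏ c : Fin (M + 1), (DD s (fr b M c * x) * DD t (fr b M c * x)) ^ 2‖ ^ 2 =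
      ∏ c ∈ range (M + 1), (ps s t (fr b M c * x) ^ 4 * ((s : ℝ) * t) ^ 4) := by
    rw [norm_prod, ← prod_pow,
      ← Fin.prod_univ_eq_prod_range
        (fun c => (ps s t (fr b M c * x) ^ 4 * ((s : ℝ) * t) ^ 4)) (M + 1)]
    apply prod_congr rfl
    intro c _
    rw [norm_pow, ← pow_mul, norm_mul]
    unfold ps
    rw [ph_eq, ph_eq, ← mul_pow]
    congr 1
    field_simp
  rw [h1, prod_mul_distrib, prod_const, card_range, prod_pow,
    mul_div_cancel_right₀ _ (pow_ne_zero _ (pow_ne_zero _ (mul_ne_zero hs0 ht0)))]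
  rfl

theorem mainLS : TaskLS := by
  intro b s t hb hs ht hst L J Q hJ hJL h1 h2
  obtain ⟨M, rfl⟩ : ∃ M, J = M + 1 := ⟨J - 1, by omega⟩
  have hb0 : 0 < b := by omega
  have hbR : (0 : ℝ) < b := by exact_mod_cast hb0
  have hsR : (0 : ℝ) < s := by exact_mod_cast hs
  have htR : (0 : ℝ) < t := by exact_mod_cast ht
  have hQ : 1 ≤ Q := by
    have : 0 < b ^ (M + 1) := by positivity
    by_contra hcon
    have h3 : Q = 0 := by omega
    rw [h3, mul_zero] at h2
    omega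
  set F : ℝ → ℝ := fun x => Fw b s t M (M + 1) x ^ 4 with hF
  have hper : ∀ (x : ℝ) (n : ℤ), F (x + n) = F x := by
    intro x n
    simp only [hF, Fw_add_int]
  have e1 : pts b Q (fun α => Fw b s t L (M + 1) α ^ 4) = pts b Q F := by
    unfold pts
    apply sum_congr rfl
    intro q hq
    rw [mem_filter] at hq
    rw [← dilate (coprime_b hq.2) (L - M) F hper]
    apply sum_congr rfl
    intro a _
    simp only [hF]
    rw [Fw_scale (L := L) (M := M) (by omega) (by omega)]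
  rw [e1]
  have e2 : pts b Q F ≤
      ∑ f ∈ Icc 1 (2 * Q), ∑ a ∈ (range f).filter (fun a => a.Coprime f), F ((a : ℝ) / f) := by
    unfold pts
    apply sum_le_sum_of_subset_of_nonneg
    · intro q hq
      rw [mem_filter, mem_Ico] at hq
      rw [mem_Icc]; omega
    · intro q _ _
      exact sum_nonneg fun a _ => pow_nonneg (Fw_nonneg _ _ _ _ _ _) _
  refine e2.trans ?_
  have e3 : ∑ f ∈ Icc 1 (2 * Q), ∑ a ∈ (range f).filter (fun a => a.Coprime f), F ((a : ℝ) / f) =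
      (∑ f ∈ Icc 1 (2 * Q), ∑ a ∈ (range f).filter (fun a => a.Coprime f),
      ‖∏ c : Fin (M + 1), (DD s (fr b M c * ((a : ℝ) / f)) *
        DD t (fr b M c * ((a : ℝ) / f))) ^ 2‖ ^ 2) / (((s : ℝ) * t) ^ 4) ^ (M + 1) := by
    rw [sum_div]
    apply sum_congr rfl
    intro f _
    rw [sum_div]
    apply sum_congr rfl
    intro a _
    simp only [hF]
    exact block_eq b s t hs ht M _
  rw [e3, div_le_iff₀ (by positivity)]
  refine (block_ls b s t hb hs ht hst M (2 * Q)).trans ?_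
  have h3 : (b : ℝ) ^ M ≤ Q := by
    have : b ^ M ≤ Q := by
      have h4 : b ^ (M + 1) = b * b ^ M := by ring
      rw [h4] at h2
      exact Nat.le_of_mul_le_mul_left h2 hb0
    exact_mod_cast this
  have h4 : (Q : ℝ) ≤ (b : ℝ) ^ (M + 1) := by exact_mod_cast h1
  have hQ0 : (0 : ℝ) < Q := by exact_mod_cast hQ
  have h5 : (((2 * b ^ (2 * M + 3) : ℕ)) : ℝ) + ((2 * Q : ℕ) : ℝ) ^ 2 ≤
      (2 * (b : ℝ) ^ 3 + 4) * (Q : ℝ) ^ 2 := by
    push_cast
    have : (b : ℝ) ^ (2 * M + 3) = (b : ℝ) ^ 3 * ((b : ℝ) ^ M) ^ 2 := by ring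
    rw [this]
    have h6 : ((b : ℝ) ^ M) ^ 2 ≤ (Q : ℝ) ^ 2 := by gcongr
    have h7 : 2 * ((b : ℝ) ^ 3 * ((b : ℝ) ^ M) ^ 2) ≤ 2 * ((b : ℝ) ^ 3 * (Q : ℝ) ^ 2) := by gcongr
    linarith
  have hE0 : 0 ≤ E4 b s t := E4_nonneg _ _ _
  have hm : m4 s t * ((s : ℝ) * t) ^ 4 = E4 b s t := by
    rw [m4_eq b s t hs ht hst]
    field_simp
  calc 6 * (((2 * b ^ (2 * M + 3) : ℕ) : ℝ) + ((2 * Q : ℕ) : ℝ) ^ 2) * E4 b s t ^ (M + 1)
      ≤ 6 * ((2 * (b : ℝ) ^ 3 + 4) * (Q : ℝ) ^ 2) * E4 b s t ^ (M + 1) := by gcongr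
    _ = 6 * (2 * (b : ℝ) ^ 3 + 4) * (Q : ℝ) * E4 b s t ^ (M + 1) * (Q : ℝ) := by ring
    _ ≤ 6 * (2 * (b : ℝ) ^ 3 + 4) * (Q : ℝ) * E4 b s t ^ (M + 1) * (b : ℝ) ^ (M + 1) := by gcongr
    _ = 12 * ((b : ℝ) ^ 3 + 2) * Q * (b * m4 s t) ^ (M + 1) * (((s : ℝ) * t) ^ 4) ^ (M + 1) := by
      rw [← hm, mul_pow, mul_pow]
      ring

theorem mainSq4 : TaskSq4 := by
  classical
  intro b s t hb hs ht hst L J m hJL hM hc
  have hb0 : 0 < b := by omega
  have hbR : (0 : ℝ) < b := by exact_mod_cast hb0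
  have hsR : (0 : ℝ) < s := by exact_mod_cast hs
  have htR : (0 : ℝ) < t := by exact_mod_cast ht
  have hm0 : 0 < m := lt_of_lt_of_le (by positivity) hM
  have hmR : (0 : ℝ) < m := by exact_mod_cast hm0
  rcases Nat.eq_zero_or_pos J with hJ0 | hJ
  · subst hJ0
    unfold EM Fw
    simp only [range_zero, prod_empty, one_pow, sum_const, card_range, nsmul_eq_mul, mul_one,
      pow_zero]
    rw [div_self hmR.ne']
  obtain ⟨M, rfl⟩ : ∃ M, J = M + 1 := ⟨J - 1, by omega⟩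
  set F : ℝ → ℝ := fun x => Fw b s t M (M + 1) x ^ 4 with hF
  have hper : ∀ (x : ℝ) (n : ℤ), F (x + n) = F x := by
    intro x n
    simp only [hF, Fw_add_int]
  have e1 : ∑ a ∈ range m, Fw b s t L (M + 1) ((a : ℝ) / m) ^ 4 =
      ∑ a ∈ range m, F ((a : ℝ) / m) := by
    rw [← dilate_all hc (L - M) F hper]
    apply sum_congr rfl
    intro a _
    simp only [hF]
    rw [Fw_scale (L := L) (M := M) (by omega) (by omega)]
  unfold EM
  rw [e1]
  set P := Fintype.piFinset (fun _ : Fin (M + 1) => range (2 * b - 1)) with hP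
  set W : (Fin (M + 1) → ℕ) → ℝ := fun z => ((∏ c : Fin (M + 1), w2 s t (z c) : ℕ) : ℝ) with hW
  have hs18 : ∀ z ∈ P, ∀ c, z c ≤ 2 * (b - 1) := by
    intro z hz c
    rw [hP, Fintype.mem_piFinset] at hz
    exact range_le b _ (hz c)
  have e2 : ∑ a ∈ range m, F ((a : ℝ) / m) =
      (∑ a ∈ range m, ‖∑ z ∈ P, (W z : ℂ) * ee ((nn b M z : ℝ) * ((a : ℝ) / m))‖ ^ 2) /
        (((s : ℝ) * t) ^ 4) ^ (M + 1) := by
    rw [sum_div]
    apply sum_congr rfl
    intro a _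
    simp only [hF]
    rw [block_eq b s t hs ht M, SS_expand b s t hs ht hst]
    simp only [hW, hP, Complex.ofReal_natCast]
  rw [e2, pars P m hm0 W (fun z => nn b M z)]
  have hlt : ∀ z ∈ P, nn b M z < m := by
    intro z hz
    have h1 := nn_le b hb M z (hs18 z hz)
    have h2 : 2 * b ^ (2 * M + 3) ≤ b ^ (2 * (M + 1) + 2) := by
      have : b ^ (2 * (M + 1) + 2) = b * b ^ (2 * M + 3) := by ring
      rw [this]
      exact Nat.mul_le_mul_right _ hb
    omega
  have e3 : ∑ z ∈ P, ∑ z' ∈ P, (if (m : ℤ) ∣ ((nn b M z : ℕ) : ℤ) - ((nn b M z' : ℕ) : ℤ)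
      then W z * W z' else 0) = ∑ z ∈ P, W z ^ 2 := by
    apply sum_congr rfl
    intro z hz
    have h1 : ∀ z' ∈ P, (if (m : ℤ) ∣ ((nn b M z : ℕ) : ℤ) - ((nn b M z' : ℕ) : ℤ)
        then W z * W z' else 0) = if z = z' then W z * W z' else 0 := by
      intro z' hz'
      have h2 : ((m : ℤ) ∣ ((nn b M z : ℕ) : ℤ) - ((nn b M z' : ℕ) : ℤ)) ↔ z = z' := by
        constructor
        · intro hd
          have h3 := hlt z hz
          have h4 := hlt z' hz'
          have h5 : ((nn b M z : ℕ) : ℤ) - ((nn b M z' : ℕ) : ℤ) = 0 := by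
            refine Int.eq_zero_of_abs_lt_dvd hd ?_
            rw [abs_lt]
            constructor <;> omega
          exact nn_inj b hb M z z' (hs18 z hz) (hs18 z' hz') (by omega)
        · rintro rfl
          simp
      by_cases h6 : z = z'
      · rw [if_pos h6, if_pos (h2.2 h6)]
      · rw [if_neg h6, if_neg (fun h => h6 (h2.1 h))]
    rw [sum_congr rfl h1, sum_ite_eq, if_pos hz, sq]
  rw [e3]
  have e4 : ∑ z ∈ P, W z ^ 2 = E4 b s t ^ (M + 1) := by
    have h3 : ∀ z, W z ^ 2 = ∏ c : Fin (M + 1), ((w2 s t (z c) : ℝ)) ^ 2 := by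
      intro z
      rw [hW]
      simp only
      push_cast
      rw [← prod_pow]
    simp_rw [h3]
    rw [hP, ← prod_univ_sum (fun _ : Fin (M + 1) => range (2 * b - 1))
      (fun _ j => ((w2 s t j : ℝ)) ^ 2)]
    rw [prod_const, card_univ, Fintype.card_fin]
    rfl
  rw [e4, m4_eq b s t hs ht hst, div_pow]
  apply le_of_eq
  field_simp


end Pool.Agent.W342.PW2
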