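import Mathlib
import Pool.Agent.W342.RE.PM

set_option autoImplicit false

/-! RE-Q2PTW (helper757, MP_8f2e1c_an): perturbations for which almost all points of the basins of
finitely many indifferent cycles become attracted. -/

open Topology Filter Metric Set Polynomial MeasureTheory
open scoped OnePoint

namespace Pool.Agent.W342.RE.PTW

open Pool.Agent.H790R3.RB (CV hF cr ND wr rt sp pr hc pol Sink Attd HypTop)
open Pool.Agent.W757.QR Pool.Agent.W757.RF Pool.Agent.W757.Q2
open Pool.Agent.W29.RQSNK (sp_iter sp_fx sp_inf fin_of)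
open Pool.Agent.W409.RQAPX (Ind ind_finite ind_cyc ind_unit)

theorem main (hSURL : StSURL2) : StPTW := by
  classical
  intro d x Zs hd hx
  set Zg : Finset (OnePoint ℂ) := Zs.filter (fun a => ∃ z, ParaA (sp x) a z ∨ SiegA (sp x) a z)
    with hZg
  rcases Zg.eq_empty_or_nonempty with h0 | ⟨a₀, ha₀⟩
  · refine ⟨fun _ => x, ∅, tendsto_const_nhds, fun _ => hx, Set.countable_empty, ?_⟩
    intro z _ H
    rcases H with H | ⟨a, ha, H⟩
    · exact Eventually.of_forall fun _ => H
    · exfalso
      have h1 : a ∈ Zg := Finset.mem_filter.2 ⟨ha, z, H⟩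
      rw [h0] at h1
      exact absurd h1 (Finset.notMem_empty a)
  · have hcen : ∀ a ∈ Zg, ∃ (p : ℕ) (ρ : ℂ), 0 < p ∧ ‖ρ‖ = 1 ∧ HasMult (sp x) p a ρ := by
      intro a ha
      obtain ⟨-, z, hz⟩ := Finset.mem_filter.1 ha
      exact cen_mult hz
    have hS : {q | SPre (sp x) q}.Infinite := by
      obtain ⟨p, ρ, hp, hρ, hm⟩ := hcen a₀ ha₀
      exact spre_inf_of hd hx hp hρ hm
    obtain ⟨a, b, c, e, h, x₁, T, hdet, hh, hx₁, hs, hG, -, hTc, hTx, hT, hmem⟩ :=
      Pool.Agent.W440.RE.GENM2.genm_mem d x ∅ _ hS hd hx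
    have hs' : ∀ z, sp x₁ (h z) = h (sp x z) := fun z => (hs z).symm
    have hs'' : ∀ z, sp x (h.symm z) = h.symm (sp x₁ z) := by
      intro z
      apply h.injective
      rw [← hs', h.apply_symm_apply, h.apply_symm_apply]
    have hinf : SPre (sp x₁) ∞ := spre_semi h.symm.toEquiv (g := sp x) hs'' hmem
    choose! p ρ hp hρ hm using hcen
    set j : ℕ := Zg.sup p with hj
    set Z : Finset ℂ := (ind_finite x₁ hd hx₁ j).toFinset with hZ
    have hZm : ∀ a ∈ Zg, toC (h a) ∈ Z := by
      intro a ha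
      rw [hZ, Set.Finite.mem_toFinset]
      exact mem_ind hinf (hp a ha) (Finset.le_sup (f := p) ha) (hρ a ha)
        (hasMult_transport hdet hh hs' (hm a ha))
    have hcyc : Cyc (nu x₁) (de x₁) Z := ind_cyc x₁ hd hx₁ j
    have hunit : Indf (nu x₁) (de x₁) Z := ind_unit x₁ hd hx₁ j
    obtain ⟨t₀, C₀, X, y, kk, ht₀, hC₀, hkk, hX⟩ := Pool.Agent.W40.RQCURVE.task
      Pool.Agent.W29.RQSYL.task d x₁ Z hd hx₁ hcyc hunit
      (hSURL d (nu x₁) (de x₁) Z (rm_of hd hx₁) hcyc hG hunit)
    have hloc := local_good x₁ hd hx₁ Z hcyc t₀ C₀ X y kk ht₀ hC₀ hkk hX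
    set tn : ℕ → ℝ := fun n => t₀ / (n + 1) with htn
    have htn0 : ∀ n, 0 < tn n := fun n => by
      simp only [htn]
      positivity
    have htn1 : ∀ n, tn n ≤ t₀ := fun n => by
      simp only [htn]
      apply div_le_self ht₀.le
      have : (0 : ℝ) ≤ n := Nat.cast_nonneg n
      linarith
    have htlim : Tendsto tn atTop (𝓝 0) := tendsto_const_div_atTop_nhds_zero_nat t₀ |>.comp
      (tendsto_add_atTop_nat 1) |>.congr fun n => by simp [htn]
    refine ⟨fun n => T (X (tn n)), {z : ℂ | ∃ n, (sp x)^[n] (z : OnePoint ℂ) = h.symm ∞}, ?_, ?_,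
      ?_, ?_⟩
    · have h1 : Tendsto (fun n => X (tn n)) atTop (𝓝 x₁) := by
        rw [tendsto_iff_norm_sub_tendsto_zero]
        have h2 : Tendsto (fun n => C₀ * tn n) atTop (𝓝 0) := by
          have := htlim.const_mul C₀
          rwa [mul_zero] at this
        exact squeeze_zero (fun n => norm_nonneg _)
          (fun n => (hX (tn n) (htn0 n).le (htn1 n)).2.1) h2
      have h2 := (hTc.tendsto x₁).comp h1
      rw [hTx] at h2
      exact h2
    · intro n
      exact (hT (X (tn n)) (hX (tn n) (htn0 n).le (htn1 n)).1).1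
    · have h1 : {z : ℂ | ∃ n, (sp x)^[n] (z : OnePoint ℂ) = h.symm ∞} =
          ⋃ n : ℕ, (fun z : ℂ => (z : OnePoint ℂ)) ⁻¹' {w | (sp x)^[n] w = h.symm ∞} := by
        ext z
        simp
      rw [h1]
      exact Set.countable_iUnion fun n =>
        (pre_countable hd hx (h.symm ∞) n).preimage OnePoint.coe_injective
    · intro z hz H
      have hzn : ∀ n, (sp x₁)^[n] (h z) ≠ ∞ := by
        intro n hn
        apply hz
        refine ⟨n, ?_⟩
        rw [Pool.Agent.H790R3.RB.ALL.iter h hs'] at hn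
        rw [← hn, h.symm_apply_apply]
      have hco : ((toC (h z) : ℂ) : OnePoint ℂ) = h z := coe_toC (hzn 0)
      have hu : toC (h z) ∈ GG' x₁ Z := by
        rcases H with H | ⟨a', ha', H⟩
        · refine Or.inl ?_
          rw [hco]
          exact Pool.Agent.H790R3.RB.ALL.attd h hs' H
        · have ha'' : a' ∈ Zg := Finset.mem_filter.2 ⟨ha', z, H⟩
          apply mem_gg hinf (hZm a' ha'')
          · rw [hco]; exact hzn
          · rw [hco]
            rcases H with H | H
            · exact Or.inl (paraA_transport hdet hh hs' H)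
            · exact Or.inr (siegA_transport hdet hh hs' H)
      obtain ⟨t₁, ht₁, H₁⟩ := hloc _ hu
      filter_upwards [htlim.eventually (gt_mem_nhds ht₁)] with n hn
      have h1 := H₁ (tn n) (htn0 n) hn
      rw [hco] at h1
      obtain ⟨-, hTs⟩ := hT (X (tn n)) (hX (tn n) (htn0 n).le (htn1 n)).1
      have hTs' : ∀ w, sp (T (X (tn n))) (h.symm w) = h.symm (sp (X (tn n)) w) := by
        intro w
        apply h.injective
        rw [hTs, h.apply_symm_apply, h.apply_symm_apply]
      have h2 := Pool.Agent.H790R3.RB.ALL.attd h.symm hTs' h1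
      rwa [h.symm_apply_apply] at h2

theorem task (hSURL : StSURL2) (_hGENM : StGENM) : StPTW := main hSURL

end Pool.Agent.W342.RE.PTW
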