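import Mathlib
import Pool.Agent.W342.RE.GB

set_option autoImplicit false

/-! RE-GAIN: the gain of area along a motion. -/

open Topology Filter Metric Set MeasureTheory

namespace Pool.Agent.W342.RE

open Pool.Agent.Helper540 Pool.Agent.W757.RD

theorem det_eq (a : ℂ) :
    ((ContinuousLinearMap.toSpanSingleton ℂ a).restrictScalars ℝ : ℂ →L[ℝ] ℂ).det = ‖a‖ ^ 2 := by
  rw [ContinuousLinearMap.det, ← LinearMap.det_toMatrix Complex.basisOneI, Matrix.det_fin_two]
  simp [LinearMap.toMatrix_apply, Complex.basisOneI, Complex.sq_norm, Complex.normSq_apply]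

theorem measurable_rho (β : ℝ) : Measurable (rho β) := by
  unfold rho
  fun_prop

theorem rho_contAt {β : ℝ} {z : ℂ} (h0 : z ≠ 0) (h1 : z ≠ 1) : ContinuousAt (rho β) z := by
  unfold rho
  apply ContinuousAt.mul
  · exact continuousAt_id.norm.rpow_const (Or.inl (norm_ne_zero_iff.2 h0))
  · exact (continuousAt_id.sub continuousAt_const).norm.rpow_const
      (Or.inl (norm_ne_zero_iff.2 (sub_ne_zero.2 h1)))

theorem rho_nonneg (β : ℝ) (z : ℂ) : 0 ≤ rho β z := by
  unfold rho
  positivity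

/-- change of variables -/
theorem mu_image {β : ℝ} {K W : Set ℂ} (hK : MeasurableSet K) (hW : IsOpen W) (hKW : K ⊆ W)
    {f : ℂ → ℂ} (hf : DifferentiableOn ℂ f W) (hi : InjOn f K) :
    mu β (f '' K) = ∫⁻ z in K, ENNReal.ofReal (‖deriv f z‖ ^ 2 * rho β (f z)) := by
  have hd : ∀ x ∈ K, HasFDerivWithinAt f
      ((ContinuousLinearMap.toSpanSingleton ℂ (deriv f x)).restrictScalars ℝ : ℂ →L[ℝ] ℂ) K x :=
    fun x hx => (((hf.differentiableAt (hW.mem_nhds (hKW hx))).hasDerivAt.hasFDerivAt).restrictScalars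
      ℝ).hasFDerivWithinAt
  have hm : MeasurableSet (f '' K) := measurable_image_of_fderivWithin hK hd hi
  unfold mu
  rw [withDensity_apply _ hm,
    lintegral_image_eq_lintegral_abs_det_fderiv_mul (volume : Measure ℂ) hK hd hi]
  apply lintegral_congr
  intro z
  rw [det_eq, abs_of_nonneg (by positivity), ← ENNReal.ofReal_mul (by positivity)]

theorem task : StGAIN := by
  intro β τ ρ N W K Φ q hβ hβ1 hρ hρτ hN hW hK hKW hd h0 hi hb hv hq hq0 hA
  have hτ : 0 < τ := hρ.trans hρτ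
  have hdJ : DifferentiableOn ℂ (J Φ) (ball 0 τ ×ˢ W) := hd
  set A : Set ℝ := Ioc 0 (2 * Real.pi) with hAdef
  set F : ℝ → ℂ → ℝ := fun θ z =>
    ‖deriv (Φ (circleMap 0 ρ θ)) z‖ ^ 2 * rho β (Φ (circleMap 0 ρ θ) z) with hF
  set K' : Set ℂ := K \ {0, 1} with hK'
  have hK'm : MeasurableSet K' := hK.diff ((Set.toFinite {(0 : ℂ), 1}).measurableSet)
  have hKK' : (volume.restrict K : Measure ℂ) = volume.restrict K' := by
    apply Measure.restrict_congr_set
    rw [hK']
    exact (sdiff_null_ae_eq_self ((Set.toFinite {(0 : ℂ), 1}).measure_zero volume)).symm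
  have hΦz : ∀ t ∈ ball (0 : ℂ) τ, DifferentiableOn ℂ (Φ t) W := by
    intro t ht z hz
    exact (hasDerivAt_z hW hdJ ht hz).differentiableAt.differentiableWithinAt
  -- joint continuity
  have hcont : ContinuousOn (Function.uncurry F) (univ ×ˢ (W \ {0, 1})) := by
    have h1 : ContinuousOn (fun p : ℝ × ℂ => ((circleMap 0 ρ p.1, p.2) : ℂ × ℂ))
        (univ ×ˢ (W \ {0, 1})) := by
      have := continuous_circleMap (0 : ℂ) ρ
      fun_prop
    have hmaps : MapsTo (fun p : ℝ × ℂ => ((circleMap 0 ρ p.1, p.2) : ℂ × ℂ))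
        (univ ×ˢ (W \ {0, 1})) (ball 0 τ ×ˢ W) := by
      intro p hp
      exact ⟨circ_mem hρ hρτ _, hp.2.1⟩
    have h2 : ContinuousOn (fun p : ℝ × ℂ => J Φ (circleMap 0 ρ p.1, p.2))
        (univ ×ˢ (W \ {0, 1})) := hdJ.continuousOn.comp h1 hmaps
    have h3 : ContinuousOn (fun p : ℝ × ℂ => fderiv ℂ (J Φ) (circleMap 0 ρ p.1, p.2) (0, 1))
        (univ ×ˢ (W \ {0, 1})) :=
      (differentiableOn_fderiv_apply (isOpen_U τ hW) hdJ (0, 1)).continuousOn.comp h1 hmaps
    have h4 : ContinuousOn (fun p : ℝ × ℂ => rho β (J Φ (circleMap 0 ρ p.1, p.2)))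
        (univ ×ˢ (W \ {0, 1})) := by
      intro p hp
      have hp2 : p.2 ≠ 0 ∧ p.2 ≠ 1 := by
        constructor
        · rintro h
          exact hp.2.2 (by simp [h])
        · rintro h
          exact hp.2.2 (by simp [h])
      have h5 := hb (circleMap 0 ρ p.1) (circ_mem hρ hρτ _) p.2 hp.2.1 hp2.1 hp2.2
      have h6 : ContinuousAt (rho β) (J Φ (circleMap 0 ρ p.1, p.2)) := rho_contAt h5.1 h5.2
      exact ContinuousAt.comp_continuousWithinAt (g := rho β)
        (f := fun p : ℝ × ℂ => J Φ (circleMap 0 ρ p.1, p.2)) h6 (h2 p hp)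
    refine ((h3.norm.pow 2).mul h4).congr ?_
    intro p hp
    show ‖deriv (Φ (circleMap 0 ρ p.1)) p.2‖ ^ 2 * rho β (Φ (circleMap 0 ρ p.1) p.2) = _
    rw [deriv_z hW hdJ (circ_mem hρ hρτ _) hp.2.1]
    rfl
  -- the area of the images
  have himg : ∀ θ : ℝ, mu β (Φ (circleMap 0 ρ θ) '' K) = ∫⁻ z in K', ENNReal.ofReal (F θ z) := by
    intro θ
    rw [← hKK']
    exact mu_image hK hW hKW (hΦz _ (circ_mem hρ hρτ θ))
      ((hi _ (circ_mem hρ hρτ θ)).mono hKW)
  have hswap : ∫⁻ z in K', (∫⁻ θ in A, ENNReal.ofReal (F θ z)) =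
      ∫⁻ θ in A, (∫⁻ z in K', ENNReal.ofReal (F θ z)) := by
    have hae : AEMeasurable (Function.uncurry fun (z : ℂ) (θ : ℝ) => ENNReal.ofReal (F θ z))
        ((volume.restrict K').prod (volume.restrict A)) := by
      apply AEMeasurable.ennreal_ofReal
      rw [Measure.prod_restrict]
      apply ContinuousOn.aemeasurable _ (hK'm.prod measurableSet_Ioc)
      have h1 : ContinuousOn (fun p : ℂ × ℝ => Function.uncurry F (p.2, p.1)) (K' ×ˢ A) := by
        apply hcont.comp (by fun_prop)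
        intro p hp
        exact ⟨mem_univ _, hKW hp.1.1, hp.1.2⟩
      exact h1
    exact lintegral_lintegral_swap hae
  -- the pointwise inequality
  have hpt : ∀ z ∈ K', ENNReal.ofReal (2 * Real.pi) * (ENNReal.ofReal (rho β z) +
      ENNReal.ofReal (rho β z) * ENNReal.ofReal (ρ ^ (2 * N) * ‖Dv β (cf Φ N) z‖ ^ 2)) ≤
      ∫⁻ θ in A, ENNReal.ofReal (F θ z) := by
    intro z hz
    have hz0 : z ≠ 0 := fun h => hz.2 (by simp [h])
    have hz1 : z ≠ 1 := fun h => hz.2 (by simp [h])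
    have hzW : z ∈ W := hKW hz.1
    have h1 := pointwise (β := β) hρ hρτ hN hW hdJ h0 hb hv hzW hz0 hz1
    have hFc : Continuous fun θ : ℝ => F θ z := by
      have h2 : ContinuousOn (fun θ : ℝ => Function.uncurry F (θ, z)) univ := by
        apply hcont.comp (by fun_prop)
        intro θ _
        exact ⟨mem_univ _, hzW, hz.2⟩
      exact continuousOn_univ.1 h2
    have hF0 : ∀ θ, 0 ≤ F θ z := fun θ => mul_nonneg (by positivity) (rho_nonneg β _)
    have h3 : ∫⁻ θ in A, ENNReal.ofReal (F θ z) =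
        ENNReal.ofReal (∫ θ in (0 : ℝ)..(2 * Real.pi), F θ z) := by
      rw [intervalIntegral.integral_of_le (by positivity)]
      rw [ofReal_integral_eq_lintegral_ofReal]
      · exact (hFc.intervalIntegrable 0 (2 * Real.pi)).1
      · exact Filter.Eventually.of_forall hF0
    rw [h3]
    refine le_trans (le_of_eq ?_) (ENNReal.ofReal_le_ofReal h1)
    have hr := rho_nonneg β z
    rw [← ENNReal.ofReal_mul hr, ← ENNReal.ofReal_add hr (by positivity),
      ← ENNReal.ofReal_mul (by positivity)]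
    congr 1
    ring
  -- the left side
  have hmuK : mu β K = ∫⁻ z in K', ENNReal.ofReal (rho β z) := by
    unfold mu
    rw [withDensity_apply _ hK, hKK']
  have hint : ∫⁻ z in K, ENNReal.ofReal (ρ ^ (2 * N) * ‖Dv β (cf Φ N) z‖ ^ 2) ∂mu β =
      ∫⁻ z in K', ENNReal.ofReal (rho β z) *
        ENNReal.ofReal (ρ ^ (2 * N) * ‖Dv β (cf Φ N) z‖ ^ 2) := by
    unfold mu
    rw [setLIntegral_withDensity_eq_setLIntegral_mul_non_measurable _
      (measurable_rho β).ennreal_ofReal _ hK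
      (Filter.Eventually.of_forall fun _ => ENNReal.ofReal_lt_top), hKK']
    rfl
  have hq' : ENNReal.ofReal (∫ θ in (0 : ℝ)..(2 * Real.pi), q θ) =
      ∫⁻ θ in A, ENNReal.ofReal (q θ) := by
    rw [intervalIntegral.integral_of_le (by positivity)]
    rw [ofReal_integral_eq_lintegral_ofReal]
    · exact (hq.intervalIntegrable 0 (2 * Real.pi)).1
    · exact Filter.Eventually.of_forall hq0
  rw [hmuK, hint, ← lintegral_add_left (measurable_rho β).ennreal_ofReal,
    ← lintegral_const_mul' _ _ ENNReal.ofReal_ne_top, hq']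
  have h5 : ∫⁻ z in K', ENNReal.ofReal (2 * Real.pi) * (ENNReal.ofReal (rho β z) +
      ENNReal.ofReal (rho β z) * ENNReal.ofReal (ρ ^ (2 * N) * ‖Dv β (cf Φ N) z‖ ^ 2)) ≤
      ∫⁻ θ in A, mu β (Φ (circleMap 0 ρ θ) '' K) := by
    simp_rw [himg]
    rw [← hswap]
    exact setLIntegral_mono' hK'm hpt
  refine (add_le_add_right h5 _).trans ?_
  rw [← lintegral_add_left hq.measurable.ennreal_ofReal]
  refine (lintegral_mono fun θ => hA θ).trans ?_
  rw [lintegral_const, Measure.restrict_apply_univ, hAdef, Real.volume_Ioc, sub_zero, mul_comm]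

end Pool.Agent.W342.RE

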